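import Pool.Agent.Helper70.OB.GoalsP

/-!
# The radial equations in a gap of the support
-/

open MeasureTheory Set Metric Filter
open scoped ENNReal Topology
open Pool.Agent.Results.MP_91ee6f_gt
open Pool.Agent.Helper70.MM (om om_zero om_one om_rel om_pos om_hasDerivAt om_le om_measurable
  U UD fUD)

namespace Pool.Agent.Helper32.OB

open Pool.Agent.Helper70.OB

lemma U_rad {n : ℕ} {τ : Measure (En n)} (hτ : Rot τ) (j : ℕ) {x x' : En n} (h : ‖x‖ = ‖x'‖) :
    U τ j x = U τ j x' := by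
  have h1 := Submodule.reflection_sub h
  set g : En n ≃ₗᵢ[ℝ] En n := (Submodule.span ℝ {x - x'})ᗮ.reflection with hg
  unfold U
  have h2 : ∫ y, om j (dist x' y) ∂τ = ∫ y, om j (dist x' y) ∂(τ.map g) := by rw [hτ g]
  have h3 : ∫ y, om j (dist x' y) ∂(τ.map g) = ∫ y, om j (dist x' (g y)) ∂τ :=
    (g.toHomeomorph.measurableEmbedding).integral_map _
  rw [h2, h3]
  refine integral_congr_ae (Eventually.of_forall fun y => ?_)
  show om j (dist x y) = om j (dist x' (g y))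
  rw [← h1, g.dist_map]

/-- the derivative of `g_j` -/
noncomputable def g1 {n : ℕ} (τ : Measure (En n)) (e : En n) (j : ℕ) (r : ℝ) : ℝ :=
  -∫ y, om (j + 1) (dist (r • e) y) * inner ℝ (r • e - y) e ∂τ

/-- second derivative in the direction `v` -/
noncomputable def g2 {n : ℕ} (τ : Measure (En n)) (e v : En n) (j : ℕ) (r : ℝ) : ℝ :=
  ∫ y, (om (j + 2) (dist (r • e) y) * (inner ℝ (r • e - y) v) ^ 2 -
    om (j + 1) (dist (r • e) y)) ∂τ

lemma gap_dist {n : ℕ} {τ : Measure (En n)} {e : En n} (he : ‖e‖ = 1) {a b : ℝ} (ha : 0 ≤ a)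
    (hgap : τ {y | a < ‖y‖ ∧ ‖y‖ < b} = 0) {r : ℝ} (hr : r ∈ Ioo a b) :
    ∀ᵐ y ∂τ, min (r - a) (b - r) ≤ dist (r • e) y := by
  have h0 : ∀ᵐ y ∂τ, ¬ (a < ‖y‖ ∧ ‖y‖ < b) := by
    rw [ae_iff]
    simpa using hgap
  filter_upwards [h0] with y hy
  have hre : ‖r • e‖ = r := by
    rw [norm_smul, he, mul_one, Real.norm_eq_abs, abs_of_pos (lt_of_le_of_lt ha hr.1)]
  have h1 : |‖r • e‖ - ‖y‖| ≤ dist (r • e) y := by
    rw [dist_eq_norm]
    exact abs_norm_sub_norm_le _ _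
  rw [hre] at h1
  refine le_trans ?_ h1
  by_cases hya : ‖y‖ ≤ a
  · refine (min_le_left _ _).trans ?_
    refine le_trans ?_ (le_abs_self _)
    linarith
  · have hyb : b ≤ ‖y‖ := by
      by_contra hc
      exact hy ⟨not_le.1 hya, not_le.1 hc⟩
    refine (min_le_right _ _).trans ?_
    refine le_trans ?_ (neg_le_abs _)
    linarith

lemma gap_ud {n : ℕ} {τ : Measure (En n)} [IsFiniteMeasure τ] {e : En n} (he : ‖e‖ = 1)
    {a b : ℝ} (ha : 0 ≤ a) (hgap : τ {y | a < ‖y‖ ∧ ‖y‖ < b} = 0) {r : ℝ} (hr : r ∈ Ioo a b)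
    (j : ℕ) {v : En n} (hv : ‖v‖ = 1) :
    Integrable (fun y => om j (dist (r • e) y)) τ ∧
    Integrable (fun y => om (j + 1) (dist (r • e) y)) τ ∧
    Integrable (fun y => om (j + 2) (dist (r • e) y) * (inner ℝ (r • e - y) v) ^ 2) τ ∧
    (∀ t : ℝ, |t| < min (r - a) (b - r) / 2 →
      HasDerivAt (fun t : ℝ => U τ j (r • e + t • v))
        (-∫ y, om (j + 1) (dist (r • e + t • v) y) * inner ℝ (r • e + t • v - y) v ∂τ) t) ∧
    HasDerivAt (fun t : ℝ => -∫ y, om (j + 1) (dist (r • e + t • v) y) *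
        inner ℝ (r • e + t • v - y) v ∂τ) (g2 τ e v j r) 0 :=
  fUD n j τ inferInstance (r • e) v (min (r - a) (b - r))
    (lt_min (by linarith [hr.1]) (by linarith [hr.2])) hv (gap_dist he ha hgap hr)

/-- first derivative of `g_j` -/
lemma gap_d1 {n : ℕ} {τ : Measure (En n)} [IsFiniteMeasure τ] {e : En n} (he : ‖e‖ = 1)
    {a b : ℝ} (ha : 0 ≤ a) (hgap : τ {y | a < ‖y‖ ∧ ‖y‖ < b} = 0) {r : ℝ} (hr : r ∈ Ioo a b)
    (j : ℕ) : HasDerivAt (gj τ e j) (g1 τ e j r) r := by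
  obtain ⟨_, _, _, h4, _⟩ := gap_ud he ha hgap hr j he
  have hpos : 0 < min (r - a) (b - r) := lt_min (by linarith [hr.1]) (by linarith [hr.2])
  have h5 := h4 0 (by rw [abs_zero]; linarith)
  have h6 : (fun t : ℝ => U τ j (r • e + t • e)) = fun t : ℝ => gj τ e j (r + t) := by
    funext t
    unfold U gj
    rw [add_smul]
  rw [h6] at h5
  have h7 : (-∫ y, om (j + 1) (dist (r • e + (0 : ℝ) • e) y) *
      inner ℝ (r • e + (0 : ℝ) • e - y) e ∂τ) = g1 τ e j r := by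
    unfold g1
    rw [zero_smul, add_zero]
  rw [h7] at h5
  have h8 : HasDerivAt (fun t : ℝ => gj τ e j (r + (t - r))) (g1 τ e j r) r :=
    HasDerivAt.comp_sub_const (f := fun t : ℝ => gj τ e j (r + t)) r r (by rw [sub_self]; exact h5)
  refine h8.congr_of_eventuallyEq (Eventually.of_forall fun t => ?_)
  show gj τ e j t = gj τ e j (r + (t - r))
  rw [add_sub_cancel]

/-- second derivative of `g_j` -/
lemma gap_d2 {n : ℕ} {τ : Measure (En n)} [IsFiniteMeasure τ] {e : En n} (he : ‖e‖ = 1)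
    {a b : ℝ} (ha : 0 ≤ a) (hgap : τ {y | a < ‖y‖ ∧ ‖y‖ < b} = 0) {r : ℝ} (hr : r ∈ Ioo a b)
    (j : ℕ) : HasDerivAt (g1 τ e j) (g2 τ e e j r) r := by
  obtain ⟨_, _, _, _, h5⟩ := gap_ud he ha hgap hr j he
  have h6 : (fun t : ℝ => -∫ y, om (j + 1) (dist (r • e + t • e) y) *
      inner ℝ (r • e + t • e - y) e ∂τ) = fun t : ℝ => g1 τ e j (r + t) := by
    funext t
    unfold g1
    rw [add_smul]
  rw [h6] at h5
  have h8 : HasDerivAt (fun t : ℝ => g1 τ e j (r + (t - r))) (g2 τ e e j r) r :=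
    HasDerivAt.comp_sub_const (f := fun t : ℝ => g1 τ e j (r + t)) r r (by rw [sub_self]; exact h5)
  refine h8.congr_of_eventuallyEq (Eventually.of_forall fun t => ?_)
  show g1 τ e j t = g1 τ e j (r + (t - r))
  rw [add_sub_cancel]

/-- second derivative in an orthogonal direction -/
lemma gap_orth {n : ℕ} {τ : Measure (En n)} [IsFiniteMeasure τ] (hτ : Rot τ) {e : En n}
    (he : ‖e‖ = 1) {a b : ℝ} (ha : 0 ≤ a) (hgap : τ {y | a < ‖y‖ ∧ ‖y‖ < b} = 0) {r : ℝ}
    (hr : r ∈ Ioo a b) (j : ℕ) {v : En n} (hv : ‖v‖ = 1) (hev : inner ℝ e v = 0) :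
    g2 τ e v j r = g1 τ e j r / r := by
  obtain ⟨_, _, _, h4, h5⟩ := gap_ud he ha hgap hr j hv
  have hr0 : 0 < r := lt_of_le_of_lt ha hr.1
  have hpos : 0 < min (r - a) (b - r) := lt_min (by linarith [hr.1]) (by linarith [hr.2])
  have hrad : ∀ t : ℝ, U τ j (r • e + t • v) = gj τ e j (Real.sqrt (r ^ 2 + t ^ 2)) := by
    intro t
    have hN : ‖r • e + t • v‖ ^ 2 = r ^ 2 + t ^ 2 := by
      rw [norm_add_sq_real, norm_smul, norm_smul, he, hv, real_inner_smul_left,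
        real_inner_smul_right, hev]
      simp
    have h1 : ‖r • e + t • v‖ = ‖Real.sqrt (r ^ 2 + t ^ 2) • e‖ := by
      rw [norm_smul, he, mul_one, Real.norm_eq_abs, abs_of_nonneg (Real.sqrt_nonneg _), ← hN,
        Real.sqrt_sq (norm_nonneg _)]
    rw [U_rad hτ j h1]
    rfl
  -- the square root near zero
  have hsq : ∀ t : ℝ, HasDerivAt (fun t : ℝ => Real.sqrt (r ^ 2 + t ^ 2))
      (t / Real.sqrt (r ^ 2 + t ^ 2)) t := by
    intro t
    have h1 : HasDerivAt (fun s : ℝ => r ^ 2 + s ^ 2) (2 * t) t := by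
      have h := (hasDerivAt_pow 2 t).const_add (r ^ 2)
      refine h.congr_deriv ?_
      norm_num
    have h2 := h1.sqrt (by positivity)
    refine h2.congr_deriv ?_
    rw [mul_div_mul_left _ _ two_ne_zero]
  have hsqc : Continuous fun t : ℝ => Real.sqrt (r ^ 2 + t ^ 2) := by fun_prop
  have hsq0 : Real.sqrt (r ^ 2 + (0 : ℝ) ^ 2) = r := by
    rw [zero_pow two_ne_zero, add_zero, Real.sqrt_sq hr0.le]
  have hin : ∀ᶠ t : ℝ in 𝓝 0, Real.sqrt (r ^ 2 + t ^ 2) ∈ Ioo a b := by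
    have h1 : Tendsto (fun t : ℝ => Real.sqrt (r ^ 2 + t ^ 2)) (𝓝 0) (𝓝 r) := by
      have h2 := hsqc.tendsto 0
      rwa [hsq0] at h2
    exact h1.eventually (isOpen_Ioo.mem_nhds hr)
  have hsmall : ∀ᶠ t : ℝ in 𝓝 0, |t| < min (r - a) (b - r) / 2 := by
    have h1 : Tendsto (fun t : ℝ => |t|) (𝓝 0) (𝓝 0) := by
      have h2 := continuous_abs.tendsto (0 : ℝ)
      rwa [abs_zero] at h2
    exact h1.eventually (gt_mem_nhds (by linarith))
  have heq : (fun t : ℝ => -∫ y, om (j + 1) (dist (r • e + t • v) y) *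
        inner ℝ (r • e + t • v - y) v ∂τ) =ᶠ[𝓝 0]
      fun t : ℝ => t * (g1 τ e j (Real.sqrt (r ^ 2 + t ^ 2)) / Real.sqrt (r ^ 2 + t ^ 2)) := by
    filter_upwards [hin, hsmall] with t ht1 ht2
    have h6 := h4 t ht2
    have h7 : (fun t : ℝ => U τ j (r • e + t • v)) =
        fun t : ℝ => gj τ e j (Real.sqrt (r ^ 2 + t ^ 2)) := funext hrad
    rw [h7] at h6
    have h8 := (gap_d1 he ha hgap ht1 j).comp t (hsq t)
    have h9 := h6.unique h8
    rw [h9]
    ring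
  have hcont : ContinuousAt (fun t : ℝ => g1 τ e j (Real.sqrt (r ^ 2 + t ^ 2)) /
      Real.sqrt (r ^ 2 + t ^ 2)) 0 := by
    have h1 : ContinuousAt (g1 τ e j) (Real.sqrt (r ^ 2 + (0 : ℝ) ^ 2)) := by
      rw [hsq0]
      exact (gap_d2 he ha hgap hr j).continuousAt
    have h2 : ContinuousAt (fun t : ℝ => g1 τ e j (Real.sqrt (r ^ 2 + t ^ 2))) 0 :=
      ContinuousAt.comp (f := fun t : ℝ => Real.sqrt (r ^ 2 + t ^ 2)) h1 hsqc.continuousAt
    refine h2.div hsqc.continuousAt ?_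
    rw [hsq0]
    exact hr0.ne'
  have hder : HasDerivAt (fun t : ℝ => t * (g1 τ e j (Real.sqrt (r ^ 2 + t ^ 2)) /
      Real.sqrt (r ^ 2 + t ^ 2))) (g1 τ e j r / r) 0 := by
    rw [hasDerivAt_iff_tendsto_slope]
    have h1 : Tendsto (fun t : ℝ => g1 τ e j (Real.sqrt (r ^ 2 + t ^ 2)) /
        Real.sqrt (r ^ 2 + t ^ 2)) (𝓝[≠] 0) (𝓝 (g1 τ e j r / r)) := by
      have h2 := hcont.tendsto
      rw [hsq0] at h2
      exact h2.mono_left nhdsWithin_le_nhds
    refine h1.congr' ?_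
    filter_upwards [self_mem_nhdsWithin] with t ht
    have ht' : t ≠ 0 := ht
    rw [slope_def_field, zero_mul, sub_zero, sub_zero, mul_comm, mul_div_assoc, div_self ht',
      mul_one]
  exact h5.unique (hder.congr_of_eventuallyEq heq)

lemma gap_sum {n : ℕ} (hn : 2 ≤ n) {τ : Measure (En n)} [IsFiniteMeasure τ] (hτ : Rot τ)
    {e : En n} (he : ‖e‖ = 1) {a b : ℝ} (ha : 0 ≤ a) (hgap : τ {y | a < ‖y‖ ∧ ‖y‖ < b} = 0)
    {r : ℝ} (hr : r ∈ Ioo a b) (j : ℕ) :
    g2 τ e e j r + ((n : ℝ) - 1) * (g1 τ e j r / r) =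
      gj τ e j r - ((n : ℝ) - 1 - 2 * j) * gj τ e (j + 1) r := by
  have hcard : Module.finrank ℝ (En n) = Fintype.card (Fin n) := by simp
  set i0 : Fin n := ⟨0, by omega⟩ with hi0
  have hv : Orthonormal ℝ (({i0} : Set (Fin n)).domRestrict (fun _ : Fin n => e)) := by
    constructor
    · intro i
      exact he
    · rintro ⟨x, hx⟩ ⟨y, hy⟩ hne
      exact absurd (Subtype.ext (hx.trans hy.symm)) hne
  obtain ⟨B, hB⟩ := hv.exists_orthonormalBasis_extension_of_card_eq hcard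
  have hBe : B i0 = e := hB i0 (mem_singleton _)
  have hnorm : ∀ i, ‖B i‖ = 1 := fun i => B.orthonormal.1 i
  have hposm : 0 < min (r - a) (b - r) := lt_min (by linarith [hr.1]) (by linarith [hr.2])
  obtain ⟨hint0, hint1, hint2, _, _⟩ := gap_ud he ha hgap hr j he
  have hintB : ∀ i, Integrable (fun y => om (j + 2) (dist (r • e) y) *
      (inner ℝ (r • e - y) (B i)) ^ 2 - om (j + 1) (dist (r • e) y)) τ := by
    intro i
    obtain ⟨_, h1, h2, _, _⟩ := gap_ud he ha hgap hr j (hnorm i)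
    exact h2.sub h1
  have hsum : ∑ i, g2 τ e (B i) j r = gj τ e j r - ((n : ℝ) - 1 - 2 * j) * gj τ e (j + 1) r := by
    unfold g2
    rw [← integral_finset_sum _ (fun i _ => hintB i)]
    unfold gj
    rw [← integral_const_mul, ← integral_sub hint0 (hint1.const_mul _)]
    refine integral_congr_ae ?_
    filter_upwards [gap_dist he ha hgap hr] with y hy
    have hd : 0 < dist (r • e) y := lt_of_lt_of_le hposm hy
    rw [Finset.sum_sub_distrib, ← Finset.mul_sum]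
    have h1 : ∑ i, (inner ℝ (r • e - y) (B i)) ^ 2 = dist (r • e) y ^ 2 := by
      have h2 := B.sum_sq_norm_inner_left (r • e - y)
      rw [dist_eq_norm, ← h2]
      refine Finset.sum_congr rfl fun i _ => ?_
      rw [Real.norm_eq_abs, sq_abs]
    rw [h1, Finset.sum_const, Finset.card_univ, Fintype.card_fin, nsmul_eq_mul]
    have h3 := om_rel j hd
    show om (j + 2) (dist (r • e) y) * dist (r • e) y ^ 2 - n * om (j + 1) (dist (r • e) y) = _
    linarith
  have hother : ∀ i ∈ Finset.univ.erase i0, g2 τ e (B i) j r = g1 τ e j r / r := by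
    intro i hi
    have hne : i ≠ i0 := Finset.ne_of_mem_erase hi
    refine gap_orth hτ he ha hgap hr j (hnorm i) ?_
    have h1 : inner ℝ (B i0) (B i) = 0 := B.orthonormal.2 hne.symm
    rw [hBe] at h1
    exact h1
  rw [← hsum, ← Finset.add_sum_erase _ _ (Finset.mem_univ i0), hBe,
    Finset.sum_congr rfl hother, Finset.sum_const, Finset.card_erase_of_mem (Finset.mem_univ i0),
    Finset.card_univ, Fintype.card_fin, nsmul_eq_mul, Nat.cast_sub (by omega : 1 ≤ n),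
    Nat.cast_one]

/-- Packet PL-GAPO. -/
theorem gapo : GAPO := by
  intro n hn τ hfin hτ e he a b ha hab hgap j
  refine ⟨fun r hr => (gap_ud he ha hgap hr j he).1,
    fun r => r ^ (n - 1) * g1 τ e j r, fun r hr => ⟨?_, ?_⟩, ?_⟩
  · have hr0 : 0 < r := lt_of_le_of_lt ha hr.1
    refine (gap_d1 he ha hgap hr j).congr_deriv ?_
    field_simp
  · have hr0 : 0 < r := lt_of_le_of_lt ha hr.1
    have h1 := (hasDerivAt_pow (n - 1) r).mul (gap_d2 he ha hgap hr j)
    refine h1.congr_deriv ?_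
    rw [← gap_sum hn hτ he ha hgap hr j]
    obtain ⟨m, rfl⟩ : ∃ m, n = m + 2 := ⟨n - 2, by omega⟩
    have h2 : m + 2 - 1 = m + 1 := by omega
    rw [h2, Nat.add_sub_cancel]
    push_cast
    field_simp
    ring
  · intro ha0 hball
    have hae : ∀ᵐ y ∂τ, b ≤ dist (0 : En n) y := by
      rw [ae_iff]
      have h1 : {y : En n | ¬ b ≤ dist 0 y} = ball 0 b := by
        ext y
        simp [dist_comm]
      rw [h1]
      exact hball
    obtain ⟨_, _, _, _, h5⟩ := fUD n j τ hfin 0 e b (by linarith) he hae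
    have h6 : (fun t : ℝ => -∫ y, om (j + 1) (dist ((0 : En n) + t • e) y) *
        inner ℝ ((0 : En n) + t • e - y) e ∂τ) = g1 τ e j := by
      funext t
      unfold g1
      rw [zero_add]
    rw [h6] at h5
    have h7 : Tendsto (g1 τ e j) (𝓝[>] 0) (𝓝 (g1 τ e j 0)) :=
      h5.continuousAt.tendsto.mono_left nhdsWithin_le_nhds
    have h8 : Tendsto (fun r : ℝ => r ^ (n - 1)) (𝓝[>] 0) (𝓝 0) := by
      have h9 : Tendsto (fun r : ℝ => r ^ (n - 1)) (𝓝 0) (𝓝 ((0 : ℝ) ^ (n - 1))) :=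
        (continuous_pow (n - 1)).tendsto 0
      rw [zero_pow (by omega)] at h9
      exact h9.mono_left nhdsWithin_le_nhds
    have h10 := h8.mul h7
    rw [zero_mul] at h10
    exact h10

end Pool.Agent.Helper32.OB
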