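import Pool.Agent.Helper70.OB.Goals

/-!
# Mass of the regularised kernel
-/

open MeasureTheory Set Metric Filter
open scoped ENNReal Topology
open Pool.Agent.Helper70.MM (om om_zero om_one om_rel om_pos om_hasDerivAt om_le om_measurable)

namespace Pool.Agent.Helper32.OB

open Pool.Agent.Helper70.OB

lemma rh_pos {ε : ℝ} (hε : 0 < ε) (s : ℝ) : 0 < Real.sqrt (s ^ 2 + ε ^ 2) :=
  Real.sqrt_pos.mpr (by positivity)

lemma rh_ge_s (ε s : ℝ) : s ≤ Real.sqrt (s ^ 2 + ε ^ 2) :=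
  Real.le_sqrt_of_sq_le (by nlinarith [sq_nonneg ε])

lemma rh_ge_e (ε s : ℝ) : ε ≤ Real.sqrt (s ^ 2 + ε ^ 2) :=
  Real.le_sqrt_of_sq_le (by nlinarith [sq_nonneg s])

lemma rh_sq (ε s : ℝ) : Real.sqrt (s ^ 2 + ε ^ 2) ^ 2 = s ^ 2 + ε ^ 2 :=
  Real.sq_sqrt (by positivity)

lemma rh_deriv {ε : ℝ} (hε : 0 < ε) (s : ℝ) :
    HasDerivAt (fun s : ℝ => Real.sqrt (s ^ 2 + ε ^ 2)) (s / Real.sqrt (s ^ 2 + ε ^ 2)) s := by
  have h1 : HasDerivAt (fun s : ℝ => s ^ 2 + ε ^ 2) (2 * s) s := by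
    have h := (hasDerivAt_pow 2 s).add_const (ε ^ 2)
    refine h.congr_deriv ?_
    norm_num
  have h2 := h1.sqrt (by positivity)
  refine h2.congr_deriv ?_
  rw [mul_div_mul_left _ _ two_ne_zero]

/-- An exponential bound. -/
lemma om_exp_bound {C : ℝ} {i : ℕ} (hC : ∀ s : ℝ, 1 ≤ s → om i s ≤ C * Real.exp (-s))
    {c s r : ℝ} (hc : 0 < c) (hs : 0 < s) (h1 : c ≤ r) (h2 : s ≤ r) :
    om i r ≤ (|C| + Real.exp 1 * om i c) * Real.exp (-s) := by
  have hoc := om_pos i hc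
  have he := Real.exp_pos (-s)
  have he1 := Real.exp_pos 1
  rcases le_total 1 s with h3 | h3
  · have h4 := hC s h3
    have h5 : om i r ≤ om i s := om_le i hs h2
    have h6 : C ≤ |C| := le_abs_self C
    have h7 : 0 ≤ Real.exp 1 * om i c * Real.exp (-s) := by positivity
    nlinarith
  · have h4 : om i r ≤ om i c := om_le i hc h1
    have h5 : 1 ≤ Real.exp 1 * Real.exp (-s) := by
      rw [← Real.exp_add]
      exact Real.one_le_exp (by linarith)
    have h6 : 0 ≤ |C| * Real.exp (-s) := by positivity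
    have h7 : om i c ≤ om i c * (Real.exp 1 * Real.exp (-s)) := le_mul_of_one_le_right hoc.le h5
    nlinarith

/-- Integrability of the regularised functions. -/
lemma int_reg (hO : OMI) {n k : ℕ} (hk : 2 ≤ k) (hn : n + 1 = 2 * k) (i : ℕ) {ε : ℝ}
    (hε : 0 < ε) :
    IntegrableOn (fun s : ℝ => s ^ (n - 1) * om i (Real.sqrt (s ^ 2 + ε ^ 2))) (Ioi 0) := by
  obtain ⟨h1, -, -, h4⟩ := hO n k hk hn
  obtain ⟨C, hC⟩ := h4 i
  have h5 := (h1 0 (by omega)).const_mul (|C| + Real.exp 1 * om i ε)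
  have hm : Measurable (fun s : ℝ => s ^ (n - 1) * om i (Real.sqrt (s ^ 2 + ε ^ 2))) :=
    (measurable_id.pow_const _).mul ((om_measurable i).comp (by fun_prop))
  refine Integrable.mono' h5 hm.aestronglyMeasurable ?_
  refine (ae_restrict_iff' measurableSet_Ioi).mpr (Eventually.of_forall fun s hs => ?_)
  have hs' : 0 < s := hs
  have h6 := om_exp_bound hC hε hs' (rh_ge_e ε s) (rh_ge_s ε s)
  have h7 := om_pos i (rh_pos hε s)
  have h8 : 0 < s ^ (n - 1) := pow_pos hs' _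
  rw [Real.norm_eq_abs, abs_of_nonneg (mul_nonneg h8.le h7.le), om_zero]
  calc s ^ (n - 1) * om i (Real.sqrt (s ^ 2 + ε ^ 2))
      ≤ s ^ (n - 1) * ((|C| + Real.exp 1 * om i ε) * Real.exp (-s)) :=
        mul_le_mul_of_nonneg_left h6 h8.le
    _ = (|C| + Real.exp 1 * om i ε) * (s ^ (n - 1) * Real.exp (-s)) := by ring

/-- The identity for the integrals. -/
lemma main_eq (hO : OMI) {n k : ℕ} (hk : 2 ≤ k) (hn : n + 1 = 2 * k) (j : ℕ) {ε : ℝ}
    (hε : 0 < ε) :
    ∫ s in Ioi (0 : ℝ), s ^ (n - 1) * (ε ^ 2 * om (j + 2) (Real.sqrt (s ^ 2 + ε ^ 2))) =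
      (∫ s in Ioi (0 : ℝ), s ^ (n - 1) * om j (Real.sqrt (s ^ 2 + ε ^ 2))) -
        ((n : ℝ) - 1 - 2 * j) *
          ∫ s in Ioi (0 : ℝ), s ^ (n - 1) * om (j + 1) (Real.sqrt (s ^ 2 + ε ^ 2)) := by
  obtain ⟨h1, -, -, h4⟩ := hO n k hk hn
  have i0 := int_reg hO hk hn j hε
  have i1 := int_reg hO hk hn (j + 1) hε
  have i2 := int_reg hO hk hn (j + 2) hε
  set ρ : ℝ → ℝ := fun s => Real.sqrt (s ^ 2 + ε ^ 2) with hρ
  set f' : ℝ → ℝ := fun s => s ^ (n - 1) * om j (ρ s) -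
    ((n : ℝ) - 1 - 2 * j) * (s ^ (n - 1) * om (j + 1) (ρ s)) -
      ε ^ 2 * (s ^ (n - 1) * om (j + 2) (ρ s)) with hf'
  have hn1 : n - 1 + 1 = n := by omega
  have hder : ∀ s : ℝ, HasDerivAt (fun s => -(s ^ n * om (j + 1) (ρ s))) (f' s) s := by
    intro s
    have hpos := rh_pos hε s
    have d1 := hasDerivAt_pow n s
    have d2 : HasDerivAt (fun s => om (j + 1) (ρ s))
        (-(ρ s * om (j + 2) (ρ s)) * (s / ρ s)) s :=
      (om_hasDerivAt (j + 1) hpos).comp s (rh_deriv hε s)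
    have d3 := (d1.mul d2).neg
    refine d3.congr_deriv ?_
    have hρs : ρ s ≠ 0 := hpos.ne'
    have e1 : -(ρ s * om (j + 2) (ρ s)) * (s / ρ s) = -(s * om (j + 2) (ρ s)) := by
      field_simp
    have e2 : ρ s ^ 2 = s ^ 2 + ε ^ 2 := rh_sq ε s
    have e3 := om_rel j hpos
    have e3' : ρ s ^ 2 * om (j + 2) (ρ s) = om j (ρ s) + (2 * j + 1) * om (j + 1) (ρ s) := e3
    rw [e1, hf']
    have e4 : s ^ n = s ^ (n - 1) * s := by rw [← pow_succ, hn1]
    have e5 : om j (ρ s) = (s ^ 2 + ε ^ 2) * om (j + 2) (ρ s) - (2 * j + 1) * om (j + 1) (ρ s) := by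
      rw [← e2]; linarith
    simp only
    rw [e4, e5]
    ring
  have hint : IntegrableOn f' (Ioi 0) :=
    (i0.sub (i1.const_mul _)).sub (i2.const_mul _)
  have hlim : Tendsto (fun s => -(s ^ n * om (j + 1) (ρ s))) atTop (𝓝 0) := by
    obtain ⟨C, hC⟩ := h4 (j + 1)
    have h5 : Tendsto (fun s : ℝ => (|C| + Real.exp 1 * om (j + 1) ε) *
        (s ^ n * Real.exp (-s))) atTop (𝓝 0) := by
      have := (Real.tendsto_pow_mul_exp_neg_atTop_nhds_zero n).const_mul
        (|C| + Real.exp 1 * om (j + 1) ε)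
      rwa [mul_zero] at this
    rw [← neg_zero]
    refine Tendsto.neg (squeeze_zero' ?_ ?_ h5)
    · filter_upwards [eventually_gt_atTop 0] with s hs
      exact mul_nonneg (pow_pos hs n).le (om_pos _ (rh_pos hε s)).le
    · filter_upwards [eventually_gt_atTop 0] with s hs
      have h6 := om_exp_bound hC hε hs (rh_ge_e ε s) (rh_ge_s ε s)
      calc s ^ n * om (j + 1) (ρ s)
          ≤ s ^ n * ((|C| + Real.exp 1 * om (j + 1) ε) * Real.exp (-s)) :=
            mul_le_mul_of_nonneg_left h6 (pow_pos hs n).le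
        _ = (|C| + Real.exp 1 * om (j + 1) ε) * (s ^ n * Real.exp (-s)) := by ring
  have h6 := integral_Ioi_of_hasDerivAt_of_tendsto
    (hder 0).continuousAt.continuousWithinAt (fun s _ => hder s) hint hlim
  have h7 : (0 : ℝ) ^ n = 0 := zero_pow (by omega)
  rw [h7, zero_mul, neg_zero, sub_zero] at h6
  have h8 : ∫ s in Ioi (0 : ℝ), f' s = (∫ s in Ioi (0 : ℝ), s ^ (n - 1) * om j (ρ s)) -
      ((n : ℝ) - 1 - 2 * j) * (∫ s in Ioi (0 : ℝ), s ^ (n - 1) * om (j + 1) (ρ s)) -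
        ε ^ 2 * ∫ s in Ioi (0 : ℝ), s ^ (n - 1) * om (j + 2) (ρ s) := by
    rw [hf']
    rw [integral_sub, integral_sub, integral_const_mul, integral_const_mul]
    · exact i0
    · exact i1.const_mul _
    · exact i0.sub (i1.const_mul _)
    · exact i2.const_mul _
  have h9 : ∫ s in Ioi (0 : ℝ), s ^ (n - 1) * (ε ^ 2 * om (j + 2) (ρ s)) =
      ε ^ 2 * ∫ s in Ioi (0 : ℝ), s ^ (n - 1) * om (j + 2) (ρ s) := by
    rw [← integral_const_mul]
    congr 1
    ext s
    ring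
  rw [h9]
  linarith

/-- Dominated convergence. -/
lemma lim_reg (hO : OMI) {n k : ℕ} (hk : 2 ≤ k) (hn : n + 1 = 2 * k) {j : ℕ} (hj : j < k) :
    Tendsto (fun ε : ℝ => ∫ s in Ioi (0 : ℝ), s ^ (n - 1) * om j (Real.sqrt (s ^ 2 + ε ^ 2)))
      (𝓝[>] 0) (𝓝 (AA n j)) := by
  obtain ⟨h1, -, -, -⟩ := hO n k hk hn
  unfold AA
  refine tendsto_integral_filter_of_dominated_convergence (fun s : ℝ => s ^ (n - 1) * om j s)
    ?_ ?_ (h1 j hj) ?_
  · refine Eventually.of_forall fun ε => ?_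
    exact ((measurable_id.pow_const _).mul
      ((om_measurable j).comp (by fun_prop))).aestronglyMeasurable
  · filter_upwards [self_mem_nhdsWithin] with ε hε
    refine (ae_restrict_iff' measurableSet_Ioi).mpr (Eventually.of_forall fun s hs => ?_)
    have hs' : 0 < s := hs
    have h8 : 0 < s ^ (n - 1) := pow_pos hs' _
    rw [Real.norm_eq_abs, abs_of_nonneg (mul_nonneg h8.le (om_pos j (rh_pos hε s)).le)]
    exact mul_le_mul_of_nonneg_left (om_le j hs' (rh_ge_s ε s)) h8.le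
  · refine (ae_restrict_iff' measurableSet_Ioi).mpr (Eventually.of_forall fun s hs => ?_)
    have hs' : 0 < s := hs
    refine Tendsto.const_mul _ ?_
    have h2 : ContinuousAt (om j) s := (om_hasDerivAt j hs').continuousAt
    have h3 : Tendsto (fun ε : ℝ => Real.sqrt (s ^ 2 + ε ^ 2)) (𝓝[>] 0) (𝓝 s) := by
      have h4 : Continuous (fun ε : ℝ => Real.sqrt (s ^ 2 + ε ^ 2)) := by fun_prop
      have h5 := (h4.tendsto 0).mono_left (nhdsWithin_le_nhds (s := Ioi (0 : ℝ)))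
      have h6 : Real.sqrt (s ^ 2 + (0 : ℝ) ^ 2) = s := by
        rw [zero_pow two_ne_zero, add_zero, Real.sqrt_sq hs'.le]
      rwa [h6] at h5
    exact h2.tendsto.comp h3

/-- MASS. -/
theorem mass : OMI → MASS := by
  intro hO n k hk hn j hj
  obtain ⟨h1, h2, -, h4⟩ := hO n k hk hn
  have hco : 0 ≤ (n : ℝ) - 1 - 2 * j := by
    have : 2 * j + 2 ≤ n + 1 := by omega
    have : (2 : ℝ) * j + 2 ≤ n + 1 := by exact_mod_cast this
    linarith
  refine ⟨fun ε hε => ⟨?_, ?_⟩, ?_, ?_⟩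
  · have h5 := (int_reg hO hk hn (j + 2) hε).const_mul (ε ^ 2)
    refine h5.congr (Eventually.of_forall fun s => ?_)
    simp only
    ring
  · rw [main_eq hO hk hn j hε]
    have h5 : ∫ s in Ioi (0 : ℝ), s ^ (n - 1) * om j (Real.sqrt (s ^ 2 + ε ^ 2)) ≤ AA n j := by
      unfold AA
      refine setIntegral_mono_on (int_reg hO hk hn j hε) (h1 j hj) measurableSet_Ioi ?_
      intro s hs
      have hs' : 0 < s := hs
      exact mul_le_mul_of_nonneg_left (om_le j hs' (rh_ge_s ε s)) (pow_pos hs' _).le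
    have h6 : 0 ≤ ∫ s in Ioi (0 : ℝ), s ^ (n - 1) * om (j + 1) (Real.sqrt (s ^ 2 + ε ^ 2)) := by
      refine setIntegral_nonneg measurableSet_Ioi fun s hs => ?_
      have hs' : 0 < s := hs
      exact mul_nonneg (pow_pos hs' _).le (om_pos _ (rh_pos hε s)).le
    have h7 := mul_nonneg hco h6
    linarith
  · have h5 : (fun ε : ℝ => ∫ s in Ioi (0 : ℝ),
        s ^ (n - 1) * (ε ^ 2 * om (j + 2) (Real.sqrt (s ^ 2 + ε ^ 2)))) =ᶠ[𝓝[>] 0]
        fun ε : ℝ => (∫ s in Ioi (0 : ℝ), s ^ (n - 1) * om j (Real.sqrt (s ^ 2 + ε ^ 2))) -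
          ((n : ℝ) - 1 - 2 * j) *
            ∫ s in Ioi (0 : ℝ), s ^ (n - 1) * om (j + 1) (Real.sqrt (s ^ 2 + ε ^ 2)) := by
      filter_upwards [self_mem_nhdsWithin] with ε hε
      exact main_eq hO hk hn j hε
    rw [tendsto_congr' h5]
    by_cases hj1 : j + 1 < k
    · rw [if_pos hj1]
      have h6 := (lim_reg hO hk hn hj).sub ((lim_reg hO hk hn hj1).const_mul
        ((n : ℝ) - 1 - 2 * j))
      have h7 : AA n j - ((n : ℝ) - 1 - 2 * j) * AA n (j + 1) = 0 := by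
        rw [h2 j hj1]; ring
      rwa [h7] at h6
    · rw [if_neg hj1]
      have h8 : (n : ℝ) - 1 - 2 * j = 0 := by
        have : n + 1 = 2 * j + 2 := by omega
        have : (n : ℝ) + 1 = 2 * j + 2 := by exact_mod_cast this
        linarith
      simp only [h8, zero_mul, sub_zero]
      exact lim_reg hO hk hn hj
  · intro η hη
    obtain ⟨C, hC⟩ := h4 (j + 2)
    set D := |C| + Real.exp 1 * om (j + 2) η with hD
    have hi : IntegrableOn (fun s : ℝ => s ^ (n - 1) * om 0 s) (Ioi η) :=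
      (h1 0 (by omega)).mono_set (Ioi_subset_Ioi hη.le)
    have h5 : Tendsto (fun ε : ℝ => ε ^ 2 * (D * ∫ s in Ioi η, s ^ (n - 1) * om 0 s))
        (𝓝[>] 0) (𝓝 0) := by
      have h6 : Continuous (fun ε : ℝ => ε ^ 2 * (D * ∫ s in Ioi η, s ^ (n - 1) * om 0 s)) := by
        fun_prop
      have h7 := (h6.tendsto 0).mono_left (nhdsWithin_le_nhds (s := Ioi (0 : ℝ)))
      rwa [zero_pow two_ne_zero, zero_mul] at h7
    refine squeeze_zero' ?_ ?_ h5
    · filter_upwards [self_mem_nhdsWithin] with ε hε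
      refine setIntegral_nonneg measurableSet_Ioi fun s hs => ?_
      have hs' : 0 < s := hη.trans hs
      have := om_pos (j + 2) (rh_pos hε s)
      positivity
    · filter_upwards [self_mem_nhdsWithin] with ε hε
      rw [← integral_const_mul, ← integral_const_mul]
      refine setIntegral_mono_on ?_ ((hi.const_mul _).const_mul _) measurableSet_Ioi ?_
      · have h7 := (int_reg hO hk hn (j + 2) hε).const_mul (ε ^ 2)
        have h8 : IntegrableOn (fun s : ℝ =>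
            s ^ (n - 1) * (ε ^ 2 * om (j + 2) (Real.sqrt (s ^ 2 + ε ^ 2)))) (Ioi 0) := by
          refine h7.congr (Eventually.of_forall fun s => ?_)
          simp only
          ring
        exact h8.mono_set (Ioi_subset_Ioi hη.le)
      · intro s hs
        have hs1 : η < s := hs
        have hs' : 0 < s := hη.trans hs
        have h8 := om_exp_bound hC hη hs' (hs1.le.trans (rh_ge_s ε s)) (rh_ge_s ε s)
        have h9 : 0 < s ^ (n - 1) := pow_pos hs' _
        have h10 : 0 ≤ ε ^ 2 * s ^ (n - 1) := by positivity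
        rw [om_zero]
        calc s ^ (n - 1) * (ε ^ 2 * om (j + 2) (Real.sqrt (s ^ 2 + ε ^ 2)))
            = (ε ^ 2 * s ^ (n - 1)) * om (j + 2) (Real.sqrt (s ^ 2 + ε ^ 2)) := by ring
          _ ≤ (ε ^ 2 * s ^ (n - 1)) * (D * Real.exp (-s)) := mul_le_mul_of_nonneg_left h8 h10
          _ = ε ^ 2 * (D * (s ^ (n - 1) * Real.exp (-s))) := by ring

end Pool.Agent.Helper32.OB
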