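import Pool.Agent.Helper70.OB.GoalsP

/-!
# The support in the plane
-/

open MeasureTheory Set Metric Filter
open scoped ENNReal Topology
open Pool.Agent.Results.MP_91ee6f_gt
open Pool.Agent.Helper70.MM (om om_zero om_one om_rel om_pos om_hasDerivAt om_le om_measurable)
open Pool.Agent.Helper70.MB (KT)

namespace Pool.Agent.Helper32.OB

open Pool.Agent.Helper70.OB

lemma integral_pos_of_ae_pos' {α : Type*} [MeasurableSpace α] {μ : Measure α} (hμ : μ ≠ 0)
    {f : α → ℝ} (hf : Integrable f μ) (h : ∀ᵐ y ∂μ, 0 < f y) : 0 < ∫ y, f y ∂μ := by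
  rw [integral_pos_iff_support_of_nonneg_ae (h.mono fun y hy => hy.le) hf]
  rw [pos_iff_ne_zero]
  intro h0
  apply hμ
  have h1 : ∀ᵐ y ∂μ, y ∉ Function.support f := by
    rw [ae_iff]
    refine measure_mono_null ?_ h0
    intro y hy
    exact not_not.1 hy
  have h2 : ∀ᵐ _y ∂μ, False := by
    filter_upwards [h, h1] with y hy1 hy2
    exact hy2 (ne_of_gt hy1)
  rw [ae_iff] at h2
  simpa using h2

lemma gap_pos_dist {n : ℕ} {τ : Measure (En n)} {e : En n} (he : ‖e‖ = 1) {a b : ℝ} (ha : 0 ≤ a)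
    (hgap : τ {y | a < ‖y‖ ∧ ‖y‖ < b} = 0) {r : ℝ} (hr : r ∈ Ioo a b) :
    ∀ᵐ y ∂τ, 0 < dist (r • e) y := by
  have h0 : ∀ᵐ y ∂τ, ¬ (a < ‖y‖ ∧ ‖y‖ < b) := by
    rw [ae_iff]
    simpa using hgap
  filter_upwards [h0] with y hy
  rw [dist_pos]
  rintro rfl
  apply hy
  have hre : ‖r • e‖ = r := by
    rw [norm_smul, he, mul_one, Real.norm_eq_abs, abs_of_pos (lt_of_le_of_lt ha hr.1)]
  rw [hre]
  exact hr

/-- The common part: a gap `(a,b)` of the support is impossible. -/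
lemma no_gap (hCHG : CHG) (hGAPO : GAPO) (hPLG : PLG) {τ : Measure (En 2)} {R : ℝ}
    (hRot : Rot τ) (hKT : KT (closedBall 0 R) τ) (hτ0 : τ ≠ 0) {e : En 2} (he : ‖e‖ = 1)
    {a b : ℝ} (ha : 0 ≤ a) (hab : a < b) (hbR : b < R)
    (hgap : τ {y | a < ‖y‖ ∧ ‖y‖ < b} = 0) (hb : b • e ∈ τ.support)
    (hcase : (0 < a ∧ a • e ∈ τ.support) ∨ (a = 0 ∧ τ (ball 0 b) = 0)) : False := by
  have hfin : IsFiniteMeasure τ := hKT.fin
  obtain ⟨-, -, -, -, hPc, hder⟩ := hCHG 2 0 le_rfl (by norm_num) τ hfin hRot e he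
  have hder' : ∀ r : ℝ, 0 < r → HasDerivAt (gj τ e 0) (pe τ e 0 r / r ^ 1) r := hder
  have hpot : ∀ r : ℝ, gj τ e 0 r = potential τ (r • e) := by
    intro r
    unfold gj potential
    simp only [om_zero]
  have hb0 : 0 < b := lt_of_le_of_lt ha hab
  -- the function V
  set V : ℝ → ℝ := fun r => gj τ e 0 r - 1 with hV
  have hVder : ∀ r : ℝ, 0 < r → HasDerivAt V (pe τ e 0 r / r ^ 1) r :=
    fun r hr => (hder' r hr).sub_const 1
  have hVnn : ∀ r : ℝ, 0 < r → r ≤ R → 0 ≤ V r := by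
    intro r hr hrR
    have h1 : (1 : ℝ) ≤ potential τ (r • e) := by
      apply hKT.ge
      rw [mem_closedBall_zero_iff, norm_smul, he, mul_one, Real.norm_eq_abs, abs_of_pos hr]
      exact hrR
    simp only [hV, hpot]
    linarith
  have hVz : ∀ r : ℝ, r • e ∈ τ.support → V r = 0 := by
    intro r hr
    simp only [hV, hpot, hKT.eq _ hr, sub_self]
  have hPz : ∀ r : ℝ, 0 < r → r < R → r • e ∈ τ.support → pe τ e 0 r = 0 := by
    intro r hr hrR hs
    have hmin : IsLocalMin V r := by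
      have h1 : ∀ᶠ s in 𝓝 r, s ∈ Ioo 0 R := isOpen_Ioo.mem_nhds ⟨hr, hrR⟩
      filter_upwards [h1] with s hs'
      rw [hVz r hs]
      exact hVnn s hs'.1 hs'.2.le
    have h2 := hmin.hasDerivAt_eq_zero (hVder r hr)
    have hr' : r ^ 1 ≠ 0 := pow_ne_zero 1 hr.ne'
    field_simp at h2
    simpa using h2
  have hVl : ∀ r : ℝ, 0 < r → r • e ∈ τ.support → Tendsto V (𝓝 r) (𝓝 0) := by
    intro r hr hs
    have h1 := (hVder r hr).continuousAt.tendsto
    rwa [hVz r hs] at h1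
  have hPl : ∀ r : ℝ, 0 < r → r < R → r • e ∈ τ.support →
      Tendsto (pe τ e 0) (𝓝 r) (𝓝 0) := by
    intro r hr hrR hs
    have h1 := (hPc.continuousAt (Ioi_mem_nhds hr)).tendsto
    rwa [hPz r hr hrR hs] at h1
  -- the equations in the gap
  obtain ⟨-, d0, hd0, hd0z⟩ := hGAPO 2 le_rfl τ hfin hRot e he a b ha hab hgap 0
  obtain ⟨hint1, d1, hd1, hd1z⟩ := hGAPO 2 le_rfl τ hfin hRot e he a b ha hab hgap 1
  obtain ⟨hint2, -, -, -⟩ := hGAPO 2 le_rfl τ hfin hRot e he a b ha hab hgap 2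
  have hd0P : ∀ r ∈ Ioo a b, d0 r = pe τ e 0 r := by
    intro r hr
    have hr0 : 0 < r := lt_of_le_of_lt ha hr.1
    have h1 : HasDerivAt (gj τ e 0) (d0 r / r ^ 1) r := (hd0 r hr).1
    have h2 := h1.unique (hder' r hr0)
    have hr' : r ^ 1 ≠ 0 := pow_ne_zero 1 hr0.ne'
    field_simp at h2
    exact h2
  have hg1 : ∀ r ∈ Ioo a b, 0 < gj τ e 1 r := by
    intro r hr
    refine integral_pos_of_ae_pos' hτ0 (hint1 r hr) ?_
    filter_upwards [gap_pos_dist he ha hgap hr] with y hy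
    exact om_pos 1 hy
  have hg2 : ∀ r ∈ Ioo a b, 0 < gj τ e 2 r := by
    intro r hr
    refine integral_pos_of_ae_pos' hτ0 (hint2 r hr) ?_
    filter_upwards [gap_pos_dist he ha hgap hr] with y hy
    exact om_pos 2 hy
  refine hPLG 1 a b V (pe τ e 0) (gj τ e 1) d1
    (fun r => r * (gj τ e 1 r + gj τ e 2 r)) ha hab ?_
    ((hVl b hb0 hb).mono_left nhdsWithin_le_nhds)
    ((hPl b hb0 hbR hb).mono_left nhdsWithin_le_nhds) ?_
  · intro r hr
    have hr0 : 0 < r := lt_of_le_of_lt ha hr.1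
    refine ⟨hVder r hr0, ?_, (hd1 r hr).1, ?_, ?_, hVnn r hr0 (hr.2.trans hbR).le⟩
    · have h1 : HasDerivAt d0 (r ^ 1 * (V r + 1 - gj τ e 1 r)) r := by
        refine (hd0 r hr).2.congr_deriv ?_
        simp only [hV]
        norm_num
      refine h1.congr_of_eventuallyEq ?_
      filter_upwards [isOpen_Ioo.mem_nhds hr] with s hs
      exact (hd0P s hs).symm
    · refine (hd1 r hr).2.congr_deriv ?_
      norm_num
    · have := hg1 r hr
      have := hg2 r hr
      positivity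
  · rcases hcase with ⟨ha0, has⟩ | ⟨ha0, hball⟩
    · left
      exact ⟨(hVl a ha0 has).mono_left nhdsWithin_le_nhds,
        (hPl a ha0 (hab.trans hbR) has).mono_left nhdsWithin_le_nhds⟩
    · right
      subst ha0
      refine ⟨rfl, ?_, hd1z rfl hball⟩
      refine (hd0z rfl hball).congr' ?_
      filter_upwards [Ioo_mem_nhdsGT hab] with s hs
      exact hd0P s hs

/-- Packet PL-PLS. -/
theorem pls : RSET → CHG → GAPO → PLG → EDGE → PLS := by
  intro hRSET hCHG hGAPO hPLG hEDGE τ R hR hRot hKT h0 hsph hne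
  have hfin : IsFiniteMeasure τ := hKT.fin
  obtain ⟨e, he⟩ : ∃ e : En 2, ‖e‖ = 1 := ⟨EuclideanSpace.single 0 1, by simp⟩
  set S : Set ℝ := {r : ℝ | 0 ≤ r ∧ r • e ∈ τ.support} with hS
  obtain ⟨hScl, hSsub, hsupp, hE1, -⟩ :=
    hRSET 2 (by norm_num) τ R hR hfin hRot hKT.compl e he S rfl
  have hnorm : ∀ r : ℝ, 0 ≤ r → ‖r • e‖ = r := by
    intro r hr
    rw [norm_smul, he, mul_one, Real.norm_eq_abs, abs_of_nonneg hr]
  have hRS : R ∈ S := by
    refine ⟨hR.le, hsph ?_⟩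
    rw [mem_sphere_zero_iff_norm, hnorm R hR.le]
  have hτ0 : τ ≠ 0 := by
    rintro rfl
    have h1 := hRS.2
    simp at h1
  -- points which are not radii of the support
  have hnull : ∀ A : Set (En 2), (∀ x ∈ A, ‖x‖ ∉ S) → τ A = 0 := by
    intro A hA
    refine measure_mono_null (t := τ.supportᶜ) ?_ Measure.measure_compl_support
    intro x hx hxs
    rw [hsupp] at hxs
    exact hA x hx hxs
  -- the edge
  obtain ⟨δ, hδ, hδR, hedge⟩ := hEDGE 2 le_rfl τ R hR hfin hRot hτ0 hKT.compl e he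
    (hKT.eq _ hRS.2)
  have hSδ : ∀ r ∈ S, r < R → r ≤ R - δ := by
    intro r hr hrR
    by_contra hc
    have h1 := hedge r (not_le.1 hc) hrR
    rw [hKT.eq _ hr.2] at h1
    exact lt_irrefl _ h1
  have hS'c : IsCompact (S ∩ Icc 0 (R - δ)) := isCompact_Icc.inter_left hScl
  have hS'n : (S ∩ Icc 0 (R - δ)).Nonempty := by
    obtain ⟨x, hx1, hx2⟩ := hne
    rw [hsupp] at hx1
    rw [mem_ball_zero_iff] at hx2
    exact ⟨‖x‖, hx1, norm_nonneg x, hSδ _ hx1 hx2⟩
  set b : ℝ := sSup (S ∩ Icc 0 (R - δ)) with hb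
  have hbS : b ∈ S ∩ Icc 0 (R - δ) := hS'c.sSup_mem hS'n
  have hbR : b < R := by linarith [hbS.2.2]
  have hbmax : ∀ r ∈ S, r < R → r ≤ b := by
    intro r hr hrR
    exact le_csSup hS'c.bddAbove ⟨hr, hr.1, hSδ r hr hrR⟩
  -- zero is not isolated
  have hzero : (0 : ℝ) ∈ S → ∀ t : ℝ, 0 < t → (S ∩ Ioo 0 t).Nonempty := by
    intro h0S t ht
    by_contra hemp
    rw [not_nonempty_iff_eq_empty] at hemp
    have h1 : τ (ball (0 : En 2) t) = 0 := by
      have h2 : ball (0 : En 2) t ⊆ {0} ∪ {x | 0 < ‖x‖ ∧ ‖x‖ < t} := by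
        intro x hx
        rw [mem_ball_zero_iff] at hx
        by_cases hx0 : x = 0
        · left; exact hx0
        · right; exact ⟨norm_pos_iff.2 hx0, hx⟩
      refine measure_mono_null h2 ?_
      rw [measure_union_null_iff]
      refine ⟨h0, hnull _ ?_⟩
      intro x hx hxS
      have h3 : ‖x‖ ∈ S ∩ Ioo 0 t := ⟨hxS, hx⟩
      rw [hemp] at h3
      exact h3
    have h2 : (0 : En 2) ∈ τ.support := by
      have h3 := h0S.2
      rwa [zero_smul] at h3
    rw [Measure.mem_support_iff_forall] at h2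
    have h3 := h2 _ (ball_mem_nhds 0 ht)
    rw [h1] at h3
    exact lt_irrefl _ h3
  have hb0 : 0 < b := by
    rcases hbS.2.1.lt_or_eq with h | h
    · exact h
    · exfalso
      have h1 : (0 : ℝ) ∈ S := by
        have h2 := hbS.1
        rwa [← h] at h2
      obtain ⟨r, hr1, hr2⟩ := hzero h1 R hR
      have h3 := hbmax r hr1 hr2.2
      rw [← h] at h3
      exact absurd hr2.1 (not_lt.2 h3)
  -- no gap
  have hIcc : Icc 0 b ⊆ S := by
    intro c hc
    by_contra hcS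
    have hc2c : IsCompact (S ∩ Icc c b) := isCompact_Icc.inter_left hScl
    have hc2n : (S ∩ Icc c b).Nonempty := ⟨b, hbS.1, hc.2, le_rfl⟩
    set r₂ : ℝ := sInf (S ∩ Icc c b) with hr₂
    have hr₂S : r₂ ∈ S ∩ Icc c b := hc2c.sInf_mem hc2n
    have hcr₂ : c < r₂ := by
      rcases hr₂S.2.1.lt_or_eq with h | h
      · exact h
      · exact absurd (h ▸ hr₂S.1) hcS
    have hr₂min : ∀ r ∈ S, c ≤ r → r < r₂ → False := by
      intro r hr hcr hrr
      have h1 : r₂ ≤ r := csInf_le hc2c.bddBelow ⟨hr, hcr, hrr.le.trans hr₂S.2.2⟩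
      exact absurd hrr (not_lt.2 h1)
    have hr₂R : r₂ < R := lt_of_le_of_lt hr₂S.2.2 hbR
    by_cases hlow : (S ∩ Icc 0 c).Nonempty
    · have hc1c : IsCompact (S ∩ Icc 0 c) := isCompact_Icc.inter_left hScl
      set r₁ : ℝ := sSup (S ∩ Icc 0 c) with hr₁
      have hr₁S : r₁ ∈ S ∩ Icc 0 c := hc1c.sSup_mem hlow
      have hr₁c : r₁ < c := by
        rcases hr₁S.2.2.lt_or_eq with h | h
        · exact h
        · exact absurd (h ▸ hr₁S.1) hcS
      have hr₁max : ∀ r ∈ S, r ≤ c → r ≤ r₁ := by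
        intro r hr hrc
        exact le_csSup hc1c.bddAbove ⟨hr, hr.1, hrc⟩
      have hr₁0 : 0 < r₁ := by
        rcases hr₁S.2.1.lt_or_eq with h | h
        · exact h
        · exfalso
          have h1 : (0 : ℝ) ∈ S := by
            have h2 := hr₁S.1
            rwa [← h] at h2
          obtain ⟨r, hr1, hr2⟩ := hzero h1 c (by linarith)
          have h3 := hr₁max r hr1 hr2.2.le
          rw [← h] at h3
          exact absurd hr2.1 (not_lt.2 h3)
      refine no_gap hCHG hGAPO hPLG hRot hKT hτ0 he hr₁0.le (hr₁c.trans hcr₂) hr₂R ?_ hr₂S.1.2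
        (Or.inl ⟨hr₁0, hr₁S.1.2⟩)
      refine hnull _ ?_
      rintro x ⟨hx1, hx2⟩ hxS
      by_cases hxc : ‖x‖ ≤ c
      · exact absurd hx1 (not_lt.2 (hr₁max _ hxS hxc))
      · exact hr₂min _ hxS (not_le.1 hxc).le hx2
    · rw [not_nonempty_iff_eq_empty] at hlow
      have hempty : ∀ r ∈ S, r < r₂ → False := by
        intro r hr hrr
        by_cases hrc : r ≤ c
        · have h1 : r ∈ S ∩ Icc 0 c := ⟨hr, hr.1, hrc⟩
          rw [hlow] at h1
          exact h1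
        · exact hr₂min r hr (not_le.1 hrc).le hrr
      refine no_gap hCHG hGAPO hPLG hRot hKT hτ0 he le_rfl (lt_of_le_of_lt hc.1 hcr₂) hr₂R ?_
        hr₂S.1.2 (Or.inr ⟨rfl, ?_⟩)
      · refine hnull _ ?_
        rintro x ⟨_, hx2⟩ hxS
        exact hempty _ hxS hx2
      · refine hnull _ ?_
        intro x hx hxS
        rw [mem_ball_zero_iff] at hx
        exact hempty _ hxS hx
  refine ⟨b, hb0, hbR, ?_⟩
  rw [hsupp]
  ext x
  rw [mem_setOf_eq, mem_union, mem_closedBall_zero_iff, mem_sphere_zero_iff_norm]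
  constructor
  · intro hx
    rcases (hSsub hx).2.lt_or_eq with h | h
    · left; exact hbmax _ hx h
    · right; exact h
  · rintro (h | h)
    · exact hIcc ⟨norm_nonneg x, h⟩
    · rw [h]; exact hRS

end Pool.Agent.Helper32.OB
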