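import Pool.Agent.Helper70.OB.Goals

/-!
# The radii of a discrete set accumulating at its lower end
-/

open MeasureTheory Set Metric Filter
open scoped ENNReal Topology

namespace Pool.Agent.Helper32.OB

open Pool.Agent.Helper70.OB

theorem seq_proof : SEQ := by
  intro S b R hbR hRS hSR hfin hne
  -- the predecessor of a point
  have step : ∀ s : {s : ℝ // s ∈ S ∧ b < s}, ∃ m : {s : ℝ // s ∈ S ∧ b < s},
      m.1 < s.1 ∧ ∀ x ∈ S, x < s.1 → x ≤ m.1 := by
    rintro ⟨s, hsS, hbs⟩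
    obtain ⟨t0, ht0S, ht0⟩ := hne s hbs
    have hF : (S ∩ Ico t0 s).Finite := by
      refine (hfin t0 ht0.1).subset ?_
      rintro x ⟨hxS, hx⟩
      exact ⟨hxS, hx.1, hSR hxS⟩
    have hFne : (S ∩ Ico t0 s).Nonempty := ⟨t0, ht0S, le_rfl, ht0.2⟩
    obtain ⟨m, ⟨hmS, hm⟩, hmax⟩ := Set.exists_max_image (S ∩ Ico t0 s) id hF hFne
    refine ⟨⟨m, hmS, lt_of_lt_of_le ht0.1 hm.1⟩, hm.2, ?_⟩
    intro x hxS hxs
    by_cases hx : t0 ≤ x
    · exact hmax x ⟨hxS, hx, hxs⟩
    · exact (not_le.1 hx).le.trans hm.1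
  choose nx hnx1 hnx2 using step
  set q : ℕ → {s : ℝ // s ∈ S ∧ b < s} := fun i => nx^[i] ⟨R, hRS, hbR⟩ with hq
  have hq0 : q 0 = ⟨R, hRS, hbR⟩ := rfl
  have hqs : ∀ i, q (i + 1) = nx (q i) := by
    intro i
    simp only [hq, Function.iterate_succ_apply']
  have hanti : StrictAnti (fun i => (q i).1) := by
    refine strictAnti_nat_of_succ_lt ?_
    intro i
    show (q (i + 1)).1 < (q i).1
    rw [hqs i]
    exact hnx1 (q i)
  -- the limit
  have hlim : Tendsto (fun i => (q i).1) atTop (𝓝 b) := by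
    have hbdd : BddBelow (range (fun i => (q i).1)) := by
      refine ⟨b, ?_⟩
      rintro _ ⟨i, rfl⟩
      exact (q i).2.2.le
    have h1 := tendsto_atTop_ciInf hanti.antitone hbdd
    have h2 : ⨅ i, (q i).1 = b := by
      refine le_antisymm ?_ (le_ciInf fun i => (q i).2.2.le)
      by_contra hcon
      have hlt : b < ⨅ i, (q i).1 := not_le.1 hcon
      have hinf : (range (fun i => (q i).1)).Infinite :=
        Set.infinite_range_of_injective hanti.injective
      refine hinf ((hfin _ hlt).subset ?_)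
      rintro _ ⟨i, rfl⟩
      exact ⟨(q i).2.1, ciInf_le hbdd i, hSR (q i).2.1⟩
    rw [h2] at h1
    exact h1
  refine ⟨fun i => (q i).1, hanti, rfl, fun i => (q i).2.2, hlim, ?_⟩
  apply Set.Subset.antisymm
  · rintro s ⟨hsS, hbs⟩
    have hbs' : b < s := hbs
    have hex : ∃ i, (q i).1 ≤ s := by
      have h3 := hlim.eventually (gt_mem_nhds hbs')
      obtain ⟨i, hi⟩ := h3.exists
      exact ⟨i, le_of_lt hi⟩
    classical
    have hi0 := Nat.find_spec hex
    have hmin : ∀ j, j < Nat.find hex → ¬ (q j).1 ≤ s := fun j hj => Nat.find_min hex hj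
    rcases Nat.eq_zero_or_pos (Nat.find hex) with h0 | hpos
    · rw [h0] at hi0
      refine ⟨0, ?_⟩
      have h4 : (q 0).1 = R := rfl
      have h5 : s ≤ R := hSR hsS
      show (q 0).1 = s
      rw [h4] at hi0 ⊢
      exact le_antisymm hi0 h5
    · obtain ⟨j, hj⟩ := Nat.exists_eq_succ_of_ne_zero hpos.ne'
      rw [hj] at hi0
      have h6 : s < (q j).1 := not_le.1 (hmin j (by omega))
      refine ⟨j + 1, ?_⟩
      show (q (j + 1)).1 = s
      refine le_antisymm hi0 ?_
      rw [hqs j]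
      exact hnx2 (q j) s hsS h6
  · rintro _ ⟨i, rfl⟩
    exact ⟨(q i).2.1, (q i).2.2⟩

end Pool.Agent.Helper32.OB
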